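import Pool.Agent.Helper22.AE.F2
import Pool.Agent.Helper22.AC.Defs

/-!
# AM, block C6b: the moments are measurable functions of the series
-/

open MeasureTheory Real Set Filter Topology unitInterval

set_option autoImplicit false

namespace Pool.Agent.Helper40.AM

open Pool.Agent.Helper22.AE
open Pool.Agent.Helper22.AC (cntc)

/-- a box of frequencies -/
private noncomputable def bxN (N : ℕ) : Finset (ℤ × ℤ) := Finset.Icc (-(N : ℤ)) N ×ˢ Finset.Icc (-(N : ℤ)) N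

private lemma mem_bxN {G : ℝ → ℝ} {N : ℕ} (hG : ∀ θ, |G θ| ≤ N) {k : ℤ × ℤ}
    (hk : ∀ θ : ℝ, (k.1 : ℝ) * cos θ + (k.2 : ℝ) * sin θ ≤ G θ) : k ∈ bxN N := by
  have a1 := (hk 0).trans ((le_abs_self _).trans (hG 0))
  have a2 := (hk π).trans ((le_abs_self _).trans (hG π))
  have a3 := (hk (π / 2)).trans ((le_abs_self _).trans (hG (π / 2)))
  have a4 := (hk (-(π / 2))).trans ((le_abs_self _).trans (hG (-(π / 2))))
  simp only [cos_zero, sin_zero, mul_one, mul_zero, add_zero, zero_add, cos_pi, sin_pi, cos_pi_div_two,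
    sin_pi_div_two, cos_neg, sin_neg, mul_neg] at a1 a2 a3 a4
  simp only [bxN, Finset.mem_product, Finset.mem_Icc]
  refine ⟨⟨?_, ?_⟩, ?_, ?_⟩
  · have : -(N : ℝ) ≤ (k.1 : ℝ) := by linarith
    exact_mod_cast this
  · exact_mod_cast a1
  · have : -(N : ℝ) ≤ (k.2 : ℝ) := by linarith
    exact_mod_cast this
  · exact_mod_cast a3

section

variable {H₀ : ℝ → ℝ} (h0 : ContDiff ℝ 2 H₀) (hp : Function.Periodic H₀ (2 * π)) {s : ℕ → ℝ}
  (hs : Summable (fun l : ℕ => (l : ℝ) ^ 2 * |s l|))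

include h0 hs in
private lemma hx_cont (θ : ℝ) : Continuous fun x : ℕ → I × I => Hx H₀ s x θ := by
  exact (Hx_cont h0 hs).comp (Continuous.prodMk continuous_id continuous_const)

include h0 hp hs in
private lemma hx_bdd (x : ℕ → I × I) : ∃ C : ℝ, ∀ t, |Hx H₀ s x t| ≤ C := by
  obtain ⟨C, hC⟩ := (isCompact_Icc : IsCompact (Icc (0 : ℝ) (2 * π))).exists_bound_of_continuousOn
    (Hx_smooth h0 hs x).continuous.continuousOn
  refine ⟨C, fun t => ?_⟩
  obtain ⟨y, hy, hy'⟩ := (Hx_per hp s x).exists_mem_Ico₀ (by positivity) t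
  rw [hy']
  exact hC y ⟨hy.1, hy.2.le⟩

open Classical in
/-- the count inside a box -/
private noncomputable def cbN (H₀ : ℝ → ℝ) (s : ℕ → ℝ) (c : ℝ × ℝ) (N : ℕ) (q : (ℕ → I × I) × ℝ) : ℝ :=
  ∑ k ∈ bxN N, (if (∀ θ : ℝ, ((k.1 : ℝ) - c.1) * cos θ + ((k.2 : ℝ) - c.2) * sin θ ≤ q.2 * Hx H₀ s q.1 θ) then (1 : ℝ) else 0)

include h0 hs in
private lemma cbN_meas (c : ℝ × ℝ) (N : ℕ) : Measurable (cbN H₀ s c N) := by
  classical
  unfold cbN
  refine Finset.measurable_sum _ fun k _ => ?_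
  refine Measurable.ite ?_ measurable_const measurable_const
  have hc : {q : (ℕ → I × I) × ℝ | ∀ θ : ℝ, ((k.1 : ℝ) - c.1) * cos θ + ((k.2 : ℝ) - c.2) * sin θ ≤ q.2 * Hx H₀ s q.1 θ} =
      ⋂ θ : ℝ, {q : (ℕ → I × I) × ℝ | ((k.1 : ℝ) - c.1) * cos θ + ((k.2 : ℝ) - c.2) * sin θ ≤ q.2 * Hx H₀ s q.1 θ} := by
    ext x
    simp
  rw [hc]
  exact (isClosed_iInter fun θ => isClosed_le continuous_const
    (continuous_snd.mul ((hx_cont h0 hs θ).comp continuous_fst))).measurableSet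

include h0 hp hs in
private lemma cbN_eq (c : ℝ × ℝ) (q : (ℕ → I × I) × ℝ) :
    ∃ N₀ : ℕ, ∀ N, N₀ ≤ N → cbN H₀ s c N q = cntc (Hx H₀ s q.1) c q.2 := by
  classical
  obtain ⟨C, hC⟩ := hx_bdd h0 hp hs q.1
  obtain ⟨N₀, hN₀⟩ := exists_nat_ge (|q.2| * C + (|c.1| + |c.2|))
  refine ⟨N₀, fun N hN => ?_⟩
  have hNr : (N₀ : ℝ) ≤ N := by exact_mod_cast hN
  have hb : ∀ θ, |q.2 * Hx H₀ s q.1 θ + (c.1 * cos θ + c.2 * sin θ)| ≤ N := by
    intro θ
    have h1 : |q.2 * Hx H₀ s q.1 θ| ≤ |q.2| * C := by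
      rw [abs_mul]
      exact mul_le_mul_of_nonneg_left (hC θ) (abs_nonneg _)
    have h2 : |c.1 * cos θ| ≤ |c.1| := by
      rw [abs_mul]
      exact mul_le_of_le_one_right (abs_nonneg _) (abs_cos_le_one θ)
    have h3 : |c.2 * sin θ| ≤ |c.2| := by
      rw [abs_mul]
      exact mul_le_of_le_one_right (abs_nonneg _) (abs_sin_le_one θ)
    have h4 := abs_add_le (q.2 * Hx H₀ s q.1 θ) (c.1 * cos θ + c.2 * sin θ)
    have h5 := abs_add_le (c.1 * cos θ) (c.2 * sin θ)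
    linarith
  unfold cbN cntc
  rw [Nat.subtype_card ((bxN N).filter fun k : ℤ × ℤ =>
    ∀ θ : ℝ, ((k.1 : ℝ) - c.1) * cos θ + ((k.2 : ℝ) - c.2) * sin θ ≤ q.2 * Hx H₀ s q.1 θ)]
  · rw [Finset.sum_boole]
  · intro k
    rw [Finset.mem_filter]
    refine ⟨fun h => h.2, fun hk => ⟨mem_bxN (G := fun θ => q.2 * Hx H₀ s q.1 θ + (c.1 * cos θ + c.2 * sin θ)) hb fun θ => ?_, hk⟩⟩
    have := hk θ
    linarith

include h0 hp hs in
/-- the count is jointly measurable in the series and the radius -/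
theorem cntc_joint (c : ℝ × ℝ) : Measurable (fun q : (ℕ → I × I) × ℝ => cntc (Hx H₀ s q.1) c q.2) := by
  refine measurable_of_tendsto_metrizable (f := fun N q => cbN H₀ s c N q) (fun N => cbN_meas h0 hs c N) ?_
  rw [tendsto_pi_nhds]
  intro q
  obtain ⟨N₀, hN₀⟩ := cbN_eq h0 hp hs c q
  exact tendsto_const_nhds.congr' (eventually_atTop.2 ⟨N₀, fun N hN => (hN₀ N hN).symm⟩)

include h0 hs in
/-- the area is a measurable function of the series -/
theorem area_meas40 : Measurable (fun x : ℕ → I × I => area (Hx H₀ s x)) := by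
  have hD : MeasurableSet {q : (ℕ → I × I) × (ℝ × ℝ) | ∀ θ : ℝ, q.2.1 * cos θ + q.2.2 * sin θ ≤ Hx H₀ s q.1 θ} := by
    have hc : {q : (ℕ → I × I) × (ℝ × ℝ) | ∀ θ : ℝ, q.2.1 * cos θ + q.2.2 * sin θ ≤ Hx H₀ s q.1 θ} =
        ⋂ θ : ℝ, {q : (ℕ → I × I) × (ℝ × ℝ) | q.2.1 * cos θ + q.2.2 * sin θ ≤ Hx H₀ s q.1 θ} := by
      ext q
      simp
    rw [hc]
    refine (isClosed_iInter fun θ => isClosed_le (by fun_prop) ?_).measurableSet
    exact (hx_cont h0 hs θ).comp continuous_fst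
  have h1 := measurable_measure_prodMk_left (ν := (volume : Measure (ℝ × ℝ))) hD
  exact h1.ennreal_toReal

include h0 hp hs in
/-- the normalised error is jointly measurable in the series and the radius -/
theorem err_joint (c : ℝ × ℝ) (p : ℕ) : Measurable (fun q : (ℕ → I × I) × ℝ =>
    ((cntc (Hx H₀ s q.1) c q.2 - area (Hx H₀ s q.1) * q.2 ^ 2) / sqrt q.2) ^ p) := by
  refine Measurable.pow_const (Measurable.div (Measurable.sub (cntc_joint h0 hp hs c) ?_) ?_) p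
  · exact ((area_meas40 h0 hs).comp measurable_fst).mul (measurable_snd.pow_const 2)
  · exact measurable_snd.sqrt

end

/-- C6b: for a fixed centre and a fixed `X ≥ 1` the moment is a measurable function of the series -/
theorem lim_meas {H₀ : ℝ → ℝ} (h0 : ContDiff ℝ 2 H₀) (hp : Function.Periodic H₀ (2 * π)) {s : ℕ → ℝ}
    (hs : Summable (fun l : ℕ => (l : ℝ) ^ 2 * |s l|)) (c : ℝ × ℝ) {X : ℝ} (hX : 1 ≤ X) (p : ℕ) :
    Measurable (fun x : ℕ → I × I => ∫ R in Icc X (2 * X), ((cntc (Hx H₀ s x) c R - area (Hx H₀ s x) * R ^ 2) / sqrt R) ^ p) := by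
  have h1 := (err_joint h0 hp hs c p).stronglyMeasurable
  exact (h1.integral_prod_right' (ν := volume.restrict (Icc X (2 * X)))).measurable

/-- M6b (old form): the even moments -/
theorem mom_meas {H₀ : ℝ → ℝ} (h0 : ContDiff ℝ 2 H₀) (hp : Function.Periodic H₀ (2 * π)) {s : ℕ → ℝ}
    (hs : Summable (fun l : ℕ => (l : ℝ) ^ 2 * |s l|)) (c : ℝ × ℝ) (X : ℝ) (J : ℕ) :
    Measurable (fun x : ℕ → I × I => ∫ R in Icc X (2 * X), |cntc (Hx H₀ s x) c R - area (Hx H₀ s x) * R ^ 2| ^ (2 * J)) := by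
  have h1 : Measurable (fun q : (ℕ → I × I) × ℝ => |cntc (Hx H₀ s q.1) c q.2 - area (Hx H₀ s q.1) * q.2 ^ 2| ^ (2 * J)) := by
    refine Measurable.pow_const (Measurable.abs (Measurable.sub (cntc_joint h0 hp hs c) ?_)) _
    exact ((area_meas40 h0 hs).comp measurable_fst).mul (measurable_snd.pow_const 2)
  exact (h1.stronglyMeasurable.integral_prod_right' (ν := volume.restrict (Icc X (2 * X)))).measurable

end Pool.Agent.Helper40.AM
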